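import Pool.Agent.L7h66.UA.Stm

set_option autoImplicit false

/-!
# Project UA, part BLL: construction of a bijection at one level
-/

namespace Pool.Agent.L7h53.UA

open Set Function
open Pool.Agent.L7h66.UA

section

variable (T : Tower) (n : ℕ)

/-- same atom of `ℕ` -/
def atN : Setoid {v : ℕ // v ∉ T.D n} where
  r u v := u.1 ∈ T.B n v.1
  iseqv :=
    { refl := fun v => T.B_self n v.1 v.2
      symm := fun {u v} h => T.B_symm v.2 h
      trans := fun {u v w} h h' => by
        have := T.B_eq n w.1 w.2 v.1 h'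
        rwa [← this] }

/-- same class of atoms -/
def clN : Setoid {v : ℕ // v ∉ T.D n} where
  r u v := ∃ s ∈ T.S n, s u.1 ∈ T.B n v.1
  iseqv :=
    { refl := fun v => ⟨1, (T.S n).one_mem, T.B_self n v.1 v.2⟩
      symm := fun {u v} h => by
        obtain ⟨s, hs, h1⟩ := h
        have h2 : v.1 ∈ T.B n (s u.1) := T.B_symm v.2 h1
        refine ⟨s⁻¹, (T.S n).inv_mem hs, ?_⟩
        rw [← T.B_S hs u.2]
        have h3 : s (s⁻¹ v.1) = v.1 := s.apply_symm_apply _
        rw [h3]
        exact h2
      trans := fun {u v w} h h' => by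
        obtain ⟨s, hs, h1⟩ := h
        obtain ⟨t, ht, h2⟩ := h'
        refine ⟨t * s, (T.S n).mul_mem ht hs, ?_⟩
        have h3 := T.B_eq n w.1 w.2 _ h2
        rw [← h3]
        exact (T.B_S ht v.2 _).2 h1 }

/-- the class of an atom -/
def kN : Quotient (atN T n) → Quotient (clN T n) :=
  Quotient.lift (fun v => Quotient.mk (clN T n) v) fun _ _ h =>
    Quotient.sound (s := clN T n) ⟨1, (T.S n).one_mem, h⟩

variable {W P : Type} (pc : W → P) (α : W → ℕ)

/-- same atom of `W` -/
def atW : Setoid {w : W // α w ∉ T.D n} where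
  r u v := pc u.1 = pc v.1 ∧ α u.1 ∈ T.B n (α v.1)
  iseqv :=
    { refl := fun v => ⟨rfl, T.B_self n _ v.2⟩
      symm := fun {u v} h => ⟨h.1.symm, T.B_symm v.2 h.2⟩
      trans := fun {u v w} h h' => by
        refine ⟨h.1.trans h'.1, ?_⟩
        have := T.B_eq n _ w.2 _ h'.2
        rw [← this]
        exact h.2 }

/-- the class of an atom of `W` -/
def kW : Quotient (atW T n pc α) → Quotient (clN T n) :=
  Quotient.lift (fun w => Quotient.mk (clN T n) ⟨α w.1, w.2⟩) fun _ _ h =>
    Quotient.sound (s := clN T n) ⟨1, (T.S n).one_mem, h.2⟩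

theorem infN (c : Quotient (clN T n)) : Infinite {q // kN T n q = c} := by
  induction c using Quotient.inductionOn with
  | h v =>
    have hI := T.S_inf n v.1 v.2
    have hI' : {x : {v : ℕ // v ∉ T.D n} | ∃ s ∈ T.S n, s v.1 = x.1}.Infinite := by
      refine Set.Infinite.of_image Subtype.val (hI.mono ?_)
      rintro u ⟨s, hs, rfl⟩
      refine ⟨⟨s v.1, ?_⟩, ⟨s, hs, rfl⟩, rfl⟩
      rw [T.D_S hs]
      exact v.2
    have hF : {q | kN T n q = Quotient.mk (clN T n) v}.Infinite := by
      intro hF
      apply hI'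
      have h1 := Set.Finite.preimage' (f := fun x => Quotient.mk (atN T n) x) hF ?_
      · refine h1.subset ?_
        rintro x ⟨s, hs, hx⟩
        refine Quotient.sound (s := clN T n) ?_
        refine (clN T n).symm ⟨s, hs, ?_⟩
        rw [hx]
        exact T.B_self n _ x.2
      · intro q _
        induction q using Quotient.inductionOn with
        | h y =>
          refine Set.Finite.of_finite_image (f := Subtype.val) ((T.B_fin n y.1).subset ?_)
            Subtype.val_injective.injOn
          rintro u ⟨x, hx, rfl⟩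
          exact Quotient.exact (s := atN T n) hx
    exact hF.to_subtype

theorem infW (h1 : ∀ u w, pc u = pc w → α u = α w → u = w)
    (h4 : ∀ v, v ∉ T.D n → {w | ∃ s ∈ T.S n, α w = s v}.Infinite)
    (c : Quotient (clN T n)) : Infinite {q // kW T n pc α q = c} := by
  induction c using Quotient.inductionOn with
  | h v =>
    have hI := h4 v.1 v.2
    have hI' : {x : {w : W // α w ∉ T.D n} | ∃ s ∈ T.S n, α x.1 = s v.1}.Infinite := by
      refine Set.Infinite.of_image Subtype.val (hI.mono ?_)
      rintro u ⟨s, hs, hu⟩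
      refine ⟨⟨u, ?_⟩, ⟨s, hs, hu⟩, rfl⟩
      rw [hu, T.D_S hs]
      exact v.2
    have hF : {q | kW T n pc α q = Quotient.mk (clN T n) v}.Infinite := by
      intro hF
      apply hI'
      have h1 := Set.Finite.preimage' (f := fun x => Quotient.mk (atW T n pc α) x) hF ?_
      · refine h1.subset ?_
        rintro x ⟨s, hs, hx⟩
        refine Quotient.sound (s := clN T n) ?_
        refine (clN T n).symm ⟨s, hs, ?_⟩
        rw [← hx]
        exact T.B_self n _ x.2
      · intro q _
        induction q using Quotient.inductionOn with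
        | h y =>
          refine Set.Finite.of_finite_image (f := fun x => α x.1)
            ((T.B_fin n (α y.1)).subset ?_) ?_
          · rintro u ⟨x, hx, rfl⟩
            exact (Quotient.exact (s := atW T n pc α) hx).2
          · intro x hx x' hx' hxx
            have e1 := (Quotient.exact (s := atW T n pc α) hx).1
            have e2 := (Quotient.exact (s := atW T n pc α) hx').1
            exact Subtype.ext (h1 _ _ (e1.trans e2.symm) hxx)
    exact hF.to_subtype

end

theorem s_BLL : S_BLL := by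
  intro T n W P _ pc α h1 h2 h3 h4
  classical
  -- the bijection of the atoms
  have hex : ∀ c : Quotient (clN T n),
      Nonempty ({q // kW T n pc α q = c} ≃ {q // kN T n q = c}) := by
    intro c
    have i1 := infW T n pc α h1 h4 c
    have i2 := infN T n c
    have c1 : Countable {w : W // α w ∉ T.D n} := inferInstance
    have c2 : Countable (Quotient (atW T n pc α)) := inferInstance
    have c3 : Countable (Quotient (atN T n)) := inferInstance
    exact nonempty_equiv_of_countable
  let e := fun c => (hex c).some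
  let Θ : Quotient (atW T n pc α) ≃ Quotient (atN T n) :=
    (Equiv.sigmaFiberEquiv (kW T n pc α)).symm.trans
      ((Equiv.sigmaCongrRight e).trans (Equiv.sigmaFiberEquiv (kN T n)))
  have hΘ : ∀ q, kN T n (Θ q) = kW T n pc α q := fun q => (e _ ⟨q, rfl⟩).2
  -- the permutation of each atom
  have hs : ∀ q : Quotient (atW T n pc α), ∃ s ∈ T.S n, ∀ x : {w : W // α w ∉ T.D n},
      Quotient.mk _ x = q → ∀ h, Quotient.mk (atN T n) ⟨s (α x.1), h⟩ = Θ q := by
    intro q
    induction q using Quotient.inductionOn with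
    | h w =>
      obtain ⟨y, hy⟩ := Quotient.exists_rep (Θ (Quotient.mk _ w))
      have h5 := hΘ (Quotient.mk _ w)
      rw [← hy] at h5
      obtain ⟨s, hs, h6⟩ := (clN T n).symm (Quotient.exact (s := clN T n) h5)
      refine ⟨s, hs, fun x hx h => ?_⟩
      rw [← hy]
      refine Quotient.sound (s := atN T n) ?_
      have h7 := (Quotient.exact (s := atW T n pc α) hx).2
      have h8 := T.B_eq n _ y.2 _ h6
      show s (α x.1) ∈ T.B n y.1
      rw [← h8]
      exact (T.B_S hs w.2 _).2 h7
  choose s hsS hs using hs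
  let ψ : W → ℕ := fun w => if h : α w ∈ T.D n then α w else
    s (Quotient.mk (atW T n pc α) ⟨w, h⟩) (α w)
  have hψ1 : ∀ w, α w ∈ T.D n → ψ w = α w := fun w hw => dif_pos hw
  have hψ2 : ∀ w (h : α w ∉ T.D n), ψ w = s (Quotient.mk (atW T n pc α) ⟨w, h⟩) (α w) :=
    fun w hw => dif_neg hw
  have hψD : ∀ w, α w ∉ T.D n → ψ w ∉ T.D n := by
    intro w hw
    rw [hψ2 w hw, T.D_S (hsS _)]
    exact hw
  have hψΘ : ∀ w (h : α w ∉ T.D n) (h' : ψ w ∉ T.D n),
      Quotient.mk (atN T n) ⟨ψ w, h'⟩ = Θ (Quotient.mk _ ⟨w, h⟩) := by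
    intro w h h'
    rw [← hs _ ⟨w, h⟩ rfl (by rw [← hψ2 w h]; exact h')]
    congr 1
    exact Subtype.ext (hψ2 w h)
  have hinj : Injective ψ := by
    intro w w' hww
    by_cases hw : α w ∈ T.D n
    · have hw' : α w' ∈ T.D n := by
        by_contra hc
        apply hψD w' hc
        rw [← hww, hψ1 w hw]
        exact hw
      rw [hψ1 w hw, hψ1 w' hw'] at hww
      obtain ⟨x, _, hx⟩ := h3 _ hw
      rw [hx w rfl, hx w' hww.symm]
    · have hw' : α w' ∉ T.D n := by
        intro hc
        apply hψD w hw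
        rw [hww, hψ1 w' hc]
        exact hc
      have e1 := hψΘ w hw (hψD w hw)
      have e2 := hψΘ w' hw' (hψD w' hw')
      have e3 : (⟨ψ w, hψD w hw⟩ : {v : ℕ // v ∉ T.D n}) = ⟨ψ w', hψD w' hw'⟩ :=
        Subtype.ext hww
      rw [e3, e2] at e1
      have e4 := Θ.injective e1
      have e5 := (Quotient.exact (s := atW T n pc α) e4).1
      rw [hψ2 w hw, hψ2 w' hw', e4] at hww
      exact h1 _ _ e5.symm ((s _).injective hww)
  have hsurj : Surjective ψ := by
    intro v
    by_cases hv : v ∈ T.D n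
    · obtain ⟨w, hw, _⟩ := h3 v hv
      refine ⟨w, ?_⟩
      rw [← hw] at hv
      rw [hψ1 w hv]
      exact hw
    · obtain ⟨q, hq⟩ := Θ.surjective (Quotient.mk (atN T n) ⟨v, hv⟩)
      obtain ⟨w, rfl⟩ := Quotient.exists_rep q
      have h5 : s (Quotient.mk _ w) (α w.1) ∉ T.D n := by
        rw [T.D_S (hsS _)]
        exact w.2
      have h6 := hs (Quotient.mk _ w) w rfl h5
      rw [hq] at h6
      have h7 : s (Quotient.mk _ w) (α w.1) ∈ T.B n v := Quotient.exact (s := atN T n) h6
      have h8 := T.B_symm hv h7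
      have h9 : s (Quotient.mk (atW T n pc α) w) ((s (Quotient.mk (atW T n pc α) w))⁻¹ v) = v :=
        Equiv.apply_symm_apply _ _
      rw [← h9, T.B_S (hsS _) w.2] at h8
      obtain ⟨u, hu1, hu2⟩ := h2 w.1 w.2 _ h8
      have h10 : α u ∉ T.D n := by
        rw [hu2]
        exact T.B_not n _ w.2 _ h8
      refine ⟨u, ?_⟩
      have h11 : Quotient.mk (atW T n pc α) ⟨u, h10⟩ = Quotient.mk (atW T n pc α) w := by
        refine Quotient.sound (s := atW T n pc α) ⟨hu1, ?_⟩
        show α u ∈ _
        rw [hu2]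
        exact h8
      rw [hψ2 u h10, h11, hu2]
      exact h9
  refine ⟨Equiv.ofBijective ψ ⟨hinj, hsurj⟩, hψ1, fun w hw => ⟨_, hsS (Quotient.mk _ ⟨w, hw⟩), ?_⟩⟩
  intro u hu1 hu2
  have h5 : α u ∉ T.D n := T.B_not n _ hw _ hu2
  have h6 : Quotient.mk (atW T n pc α) ⟨u, h5⟩ = Quotient.mk (atW T n pc α) ⟨w, hw⟩ :=
    Quotient.sound (s := atW T n pc α) ⟨hu1, hu2⟩
  show ψ u = _
  rw [hψ2 u h5, h6]

end Pool.Agent.L7h53.UA
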