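import Pool.Agent.L7h66.UA.Stm

set_option autoImplicit false

/-!
# Project UA, part CNT: finitely many free classes give countably many models
-/

namespace Pool.Agent.L7h53.UA

open Set Function
open Pool.Agent.L7h66.UA

/-- the number of the components of `ψ` isomorphic to that of `q` -/
noncomputable def num (T : Tower) (ψ : ℕ → (ℕ ≃ ℕ)) (q : PM T) : ℕ∞ :=
  {K : Set ℕ | ∃ w, w ∉ Din T ψ ∧ K = Cp T ψ w ∧ CE T q.ψ q.w ψ w}.encard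

theorem s_CNT (h1 : S_CNA) (h2 : S_CEQ) : S_CNT := by
  intro T L hL hfree
  classical
  have hLf : Finite L := hL
  let code : (ℕ → (ℕ ≃ ℕ)) → (L → ℕ∞) := fun ψ p => num T ψ p.1
  have hkey : ∀ ψ ψ' : ℕ → (ℕ ≃ ℕ), Coh T ψ → Coh T ψ' → code ψ = code ψ' → MIso T ψ ψ' := by
    intro ψ ψ' hψ hψ' hc
    refine h1 T ψ ψ' hψ hψ' fun q => ?_
    by_cases hq : FreeP T q
    · obtain ⟨p, hp, hpq⟩ := hfree q hq
      have hqp := (h2 T ℕ ℕ ℕ p.ψ q.ψ p.ψ p.coh q.coh p.coh p.w q.w p.w p.hw q.hw hpq).1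
      have hn : ∀ φ : ℕ → (ℕ ≃ ℕ), Coh T φ →
          {K : Set ℕ | ∃ w, w ∉ Din T φ ∧ K = Cp T φ w ∧ CE T q.ψ q.w φ w}.encard
            = num T φ p := by
        intro φ hφ
        unfold num
        congr 1
        ext K
        constructor
        · rintro ⟨w, hw, hK, hqw⟩
          exact ⟨w, hw, hK, (h2 T ℕ ℕ ℕ p.ψ q.ψ φ p.coh q.coh hφ p.w q.w w p.hw q.hw hpq).2 hw hqw⟩
        · rintro ⟨w, hw, hK, hpw⟩
          exact ⟨w, hw, hK, (h2 T ℕ ℕ ℕ q.ψ p.ψ φ q.coh p.coh hφ q.w p.w w q.hw p.hw hqp).2 hw hpw⟩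
      rw [hn ψ hψ, hn ψ' hψ']
      exact congrFun hc ⟨p, hp⟩
    · have hn : ∀ φ : ℕ → (ℕ ≃ ℕ), Coh T φ →
          {K : Set ℕ | ∃ w, w ∉ Din T φ ∧ K = Cp T φ w ∧ CE T q.ψ q.w φ w}.encard = ⊤ := by
        intro φ hφ
        refine Set.encard_eq_top_iff.2 fun hf => hq ⟨φ, hφ, hf⟩
      rw [hn ψ hψ, hn ψ' hψ']
  let F : Set (L → ℕ∞) := code '' {ψ | Coh T ψ}
  have hF : ∀ f : F, ∃ ψ : ℕ → (ℕ ≃ ℕ), Coh T ψ ∧ code ψ = f.1 := by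
    rintro ⟨f, ψ, hψ, rfl⟩
    exact ⟨ψ, hψ, rfl⟩
  choose g hg hg' using hF
  refine ⟨range g, Set.countable_range g, ?_, ?_⟩
  · rintro _ ⟨f, rfl⟩
    exact hg f
  · intro ψ hψ
    refine ⟨g ⟨code ψ, ψ, hψ, rfl⟩, ⟨_, rfl⟩, ?_⟩
    exact hkey _ _ (hg _) hψ (hg' _)

end Pool.Agent.L7h53.UA
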